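import Mathlib

open Polynomial Filter Topology Set

namespace Pool.Agent.Results.MP_12a475_nt.CloseRoots

private noncomputable def pl (l : List ℤ) : ℤ[X] :=
  ∑ i ∈ Finset.range l.length, monomial i (l.getD i 0)

private lemma pl_coeff (l : List ℤ) (i : ℕ) : (pl l).coeff i = l.getD i 0 := by
  simp only [pl, finsetSum_coeff, coeff_monomial, Finset.sum_ite_eq', Finset.mem_range]
  split_ifs with h
  · rfl
  · exact (List.getD_eq_default _ _ (not_lt.1 h)).symm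

private def lf : List ℤ := [1, -1, -1, 0, -1, -1, 0, -1, -1]

private def l1 : List ℤ :=
  [0, 1, 0, 0, 0, 0, -1, 0, -1, 0, -1, -1, 0, 0, 0, 0, 0, 0, 0, 0, 1, 0, 0, 1, 0, 0, 1, 0]

private def l2 : List ℤ :=
  [1, -1, -1, 1, 1, 1, 1, 1, 1, 0, 1, 1, -1, 0, 1, -1, 0, 1, 1, 0, -1, -1, -1, -1, -1, -1, -1, -1]

private lemma getD_mem {l : List ℤ} (h : ∀ a ∈ l, a = -1 ∨ a = 0 ∨ a = 1) (i : ℕ) :
    l.getD i 0 ∈ ({-1, 0, 1} : Set ℤ) := by
  by_cases hi : i < l.length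
  · rw [List.getD_eq_getElem _ _ hi]
    exact h _ (List.getElem_mem hi)
  · rw [List.getD_eq_default _ _ (not_lt.1 hi)]
    simp

private lemma good {l : List ℤ} (h : ∀ a ∈ l, a = -1 ∨ a = 0 ∨ a = 1) (hl : l.length = 28) {s : ℕ}
    (hs : 9 ≤ s) : pl lf + X ^ s * pl l ≠ 0 ∧ (pl lf + X ^ s * pl l).natDegree ≤ s + 27 ∧
      ∀ i, (pl lf + X ^ s * pl l).coeff i ∈ ({-1, 0, 1} : Set ℤ) := by
  have c : ∀ i, (pl lf + X ^ s * pl l).coeff i =
      lf.getD i 0 + if s ≤ i then l.getD (i - s) 0 else 0 := fun i => by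
    rw [coeff_add, coeff_X_pow_mul', pl_coeff, pl_coeff]
  have z : ∀ i, s ≤ i → lf.getD i 0 = 0 := fun i hi => List.getD_eq_default _ _ (hs.trans hi)
  refine ⟨fun h0 => ?_, natDegree_le_iff_coeff_eq_zero.2 fun i hi => ?_, fun i => ?_⟩
  · have := c 0
    rw [h0, if_neg (by omega)] at this
    simp [lf] at this
  · rw [c, z i (by omega), if_pos (by omega), List.getD_eq_default _ _ (by omega), add_zero]
  · rw [c]
    split_ifs with hi
    · rw [z i hi, zero_add]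
      exact getD_mem h _
    · rw [add_zero]
      exact getD_mem (by decide) _

private lemma ev_f (x : ℝ) :
    aeval x (pl lf) = 1 - x - x ^ 2 - x ^ 4 - x ^ 5 - x ^ 7 - x ^ 8 := by
  simp [pl, lf, Finset.sum_range_succ, aeval_monomial]
  ring

private lemma ev_1 (x : ℝ) :
    aeval x (pl l1) = x - x ^ 6 - x ^ 8 - x ^ 10 - x ^ 11 + x ^ 20 + x ^ 23 + x ^ 26 := by
  simp [pl, l1, Finset.sum_range_succ, aeval_monomial]
  ring

private lemma ev_2 (x : ℝ) : aeval x (pl l2) =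
    aeval x (pl l1) + aeval x (pl lf) ^ 2 * (1 - x ^ 3 + x ^ 8 - x ^ 11) := by
  rw [ev_1, ev_f]
  simp [pl, l2, Finset.sum_range_succ, aeval_monomial]
  ring

private lemma w_bd {x : ℝ} (h0 : 1 / 2 ≤ x) (h1 : x ≤ 3 / 5) :
    0 < aeval x (pl l1) ∧ aeval x (pl l1) ≤ 4 ∧ 0 < 1 - x ^ 3 + x ^ 8 - x ^ 11 ∧
      1 - x ^ 3 + x ^ 8 - x ^ 11 ≤ 2 := by
  have x0 : 0 ≤ x := by linarith
  have u : ∀ k : ℕ, 0 ≤ x ^ k ∧ x ^ k ≤ (3 / 5) ^ k := fun k =>
    ⟨pow_nonneg x0 k, pow_le_pow_left₀ x0 h1 k⟩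
  have := u 3
  have := u 6
  have := u 8
  have := u 10
  have := u 11
  have := u 20
  have := u 23
  have := u 26
  rw [ev_1]
  norm_num at *
  refine ⟨?_, ?_, ?_, ?_⟩ <;> linarith

/-- For all large `n` there are two polynomials of degree at most `n` with coefficients in
`{-1, 0, 1}` and distinct real roots of them in `(1/2, 1)` at distance at most `6.18 ^ (-n)`. -/
theorem result : ∃ N : ℕ, ∀ n ≥ N, ∃ P₁ P₂ : Polynomial ℤ,
    P₁ ≠ 0 ∧ P₂ ≠ 0 ∧ P₁.natDegree ≤ n ∧ P₂.natDegree ≤ n ∧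
    (∀ i : ℕ, P₁.coeff i ∈ ({-1, 0, 1} : Set ℤ)) ∧ (∀ i : ℕ, P₂.coeff i ∈ ({-1, 0, 1} : Set ℤ)) ∧
    ∃ ξ₁ ξ₂ : ℝ, ξ₁ ∈ Set.Ioo (1 / 2 : ℝ) 1 ∧ ξ₂ ∈ Set.Ioo (1 / 2 : ℝ) 1 ∧
      Polynomial.aeval ξ₁ P₁ = 0 ∧ Polynomial.aeval ξ₂ P₂ = 0 ∧ ξ₁ ≠ ξ₂ ∧
      |ξ₁ - ξ₂| ≤ ((6.18 : ℝ) ^ n)⁻¹ := by
  have cd : ∀ P : ℤ[X], ContDiff ℝ 1 fun x : ℝ => aeval x P := fun P => contDiff_aeval P 1
  obtain ⟨L, hL⟩ := (cd (pl l2)).contDiffOn.exists_lipschitzOnWith one_ne_zero (convex_Icc 0 1)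
    isCompact_Icc
  obtain ⟨B, hB⟩ := isCompact_Icc.exists_bound_of_continuousOn (s := Icc (0 : ℝ) 1)
    (cd (pl l2)).continuous.continuousOn
  have B0 : 0 ≤ B := (norm_nonneg _).trans (hB 0 ⟨le_rfl, zero_le_one⟩)
  have t0 := tendsto_pow_atTop_nhds_zero_of_lt_one (r := (3 / 5 : ℝ)) (by norm_num) (by norm_num)
  have t1 : Tendsto (fun s : ℕ => (s * (3 / 5) ^ s * (5 / 3 * B) + (3 / 5) ^ s * L : ℝ)) atTop
      (𝓝 (0 * (5 / 3 * B) + 0 * L)) :=
    ((tendsto_self_mul_const_pow_of_lt_one (by norm_num) (by norm_num)).mul_const _).add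
      (t0.mul_const _)
  have t2 := (tendsto_pow_atTop_nhds_zero_of_lt_one (r := (0.5449 ^ 3 * 6.18 : ℝ)) (by norm_num)
    (by norm_num)).mul_const (32 * 6.18 ^ 27)
  obtain ⟨N, hN⟩ := eventually_atTop.1 ((eventually_ge_atTop 9).and
    ((t0.eventually_le_const (u := 1 / 1000000) (by norm_num)).and
    ((t1.eventually_le_const (u := 1) (by norm_num)).and
      (t2.eventually_le_const (u := 1) (by norm_num)))))
  refine ⟨N + 27, fun n hn => ?_⟩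
  obtain ⟨s, rfl⟩ : ∃ s, n = s + 27 := ⟨n - 27, by omega⟩
  obtain ⟨s9, a0, a1, a2⟩ := hN s (by omega)
  obtain ⟨g1, g2, g3⟩ := good (l := l1) (by decide) rfl s9
  obtain ⟨g4, g5, g6⟩ := good (l := l2) (by decide) rfl s9
  refine ⟨_, _, g1, g4, g2, g5, g3, g6, ?_⟩
  have ev : ∀ (l : List ℤ) (x : ℝ), aeval x (pl lf + X ^ s * pl l) =
      aeval x (pl lf) + x ^ s * aeval x (pl l) := fun l x => by simp
  have small : ∀ x : ℝ, 0 ≤ x → x ≤ 3 / 5 → x ^ s ≤ 1 / 1000000 := fun x h0 h1 =>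
    (pow_le_pow_left₀ h0 h1 s).trans a0
  obtain ⟨x, ⟨x1, x2⟩, hx⟩ : (0 : ℝ) ∈ (fun x : ℝ => aeval x (pl lf + X ^ s * pl l1)) ''
      Icc 0.54 0.5449 := by
    refine intermediate_value_Icc' (by norm_num) (cd _).continuous.continuousOn ⟨?_, ?_⟩
    · obtain ⟨b1, b2, -⟩ := w_bd (x := 0.5449) (by norm_num) (by norm_num)
      have := mul_le_mul (small 0.5449 (by norm_num) (by norm_num)) b2 b1.le (by norm_num)
      rw [ev, ev_f]
      norm_num at this ⊢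
      linarith
    · obtain ⟨b1, -⟩ := w_bd (x := 0.54) (by norm_num) (by norm_num)
      rw [ev, ev_f]
      positivity
  beta_reduce at hx
  have x0 : 0 < x := by linarith
  obtain ⟨b1, b2, b3, b4⟩ := w_bd (x := x) (by linarith) (by linarith)
  obtain ⟨η, hη⟩ : ∃ η, η = aeval x (pl lf + X ^ s * pl l2) := ⟨_, rfl⟩
  have e : η = x ^ s * (x ^ s * aeval x (pl l1)) ^ 2 * (1 - x ^ 3 + x ^ 8 - x ^ 11) := by
    rw [ev] at hx
    rw [hη, ev, ev_2, eq_neg_of_add_eq_zero_left hx]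
    ring
  have η0 : 0 < η := by rw [e]; positivity
  have η1 : η ≤ 0.5449 ^ s * (0.5449 ^ s * 4) ^ 2 * 2 := by rw [e]; gcongr
  have η2 : η ≤ ((6.18 : ℝ) ^ (s + 27))⁻¹ := by
    rw [inv_eq_one_div, le_div_iff₀ (by positivity)]
    refine le_trans ?_ a2
    calc _ ≤ 0.5449 ^ s * (0.5449 ^ s * 4) ^ 2 * 2 * (6.18 : ℝ) ^ (s + 27) := by gcongr
      _ = _ := by rw [mul_pow (_ ^ 3), ← pow_mul, pow_mul', pow_add]; ring
  have η3 : η ≤ 1 / 100 := η2.trans (by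
    rw [one_div]
    refine inv_anti₀ (by norm_num) (le_trans (by norm_num) (pow_le_pow_right₀ (by norm_num)
      (show 3 ≤ s + 27 by omega))))
  obtain ⟨y, hy⟩ : ∃ y, y = x + η := ⟨_, rfl⟩
  have y0 : x ≤ y := by linarith
  have y1 : y ≤ 3 / 5 := by norm_num at x2; linarith
  have neg : aeval y (pl lf + X ^ s * pl l2) ≤ 0 := by
    have p : ∀ k : ℕ, x ^ k ≤ y ^ k := fun k => pow_le_pow_left₀ x0.le y0 k
    have q1 : aeval y (pl lf) ≤ aeval x (pl lf) - 2 * η := by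
      have : x ^ 2 + η ≤ y ^ 2 := by rw [hy]; nlinarith
      rw [ev_f, ev_f]
      linarith [p 4, p 5, p 7, p 8]
    have q2 : |y ^ s - x ^ s| ≤ η * (s * (3 / 5) ^ s * (5 / 3)) := by
      refine (abs_pow_sub_pow_le y x s).trans ?_
      rw [show y - x = η by linarith, abs_of_pos η0, abs_of_pos x0, abs_of_pos (x0.trans_le y0),
        max_eq_left y0, mul_assoc, mul_assoc,
        show (3 / 5 : ℝ) ^ s * (5 / 3) = (3 / 5) ^ (s - 1) by
          conv_lhs => rw [← Nat.sub_add_cancel (show 1 ≤ s by omega), pow_succ]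
          ring]
      gcongr
      linarith
    have m1 : x ∈ Icc (0 : ℝ) 1 := ⟨x0.le, by linarith⟩
    have m2 : y ∈ Icc (0 : ℝ) 1 := ⟨by linarith, by linarith⟩
    have q3 : |aeval y (pl l2) - aeval x (pl l2)| ≤ L * η := by
      have := hL.dist_le_mul y m2 x m1
      rwa [Real.dist_eq, Real.dist_eq, show y - x = η by linarith, abs_of_pos η0] at this
    have q4 : (y ^ s - x ^ s) * aeval y (pl l2) ≤ η * (s * (3 / 5) ^ s * (5 / 3)) * B :=
      (le_abs_self _).trans (by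
        rw [abs_mul]
        exact mul_le_mul q2 (hB y m2) (abs_nonneg _) (by positivity))
    have q5 : x ^ s * (aeval y (pl l2) - aeval x (pl l2)) ≤ (3 / 5) ^ s * (L * η) :=
      (mul_le_mul_of_nonneg_left (le_abs_self _) (by positivity)).trans
        (mul_le_mul (pow_le_pow_left₀ x0.le (y0.trans y1) s) q3 (abs_nonneg _) (by positivity))
    have q6 := mul_le_mul_of_nonneg_left a1 η0.le
    rw [ev] at hη ⊢
    linarith
  obtain ⟨z, ⟨z1, z2⟩, hz⟩ : (0 : ℝ) ∈ (fun x : ℝ => aeval x (pl lf + X ^ s * pl l2)) '' Icc x y :=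
    intermediate_value_Icc' y0 (cd _).continuous.continuousOn ⟨neg, hη ▸ η0.le⟩
  refine ⟨x, z, ⟨by linarith, by linarith⟩, ⟨by linarith, by linarith⟩, hx, hz, ?_, ?_⟩
  · rintro rfl
    exact η0.ne' (hη.trans hz)
  · rw [abs_sub_comm, abs_of_nonneg (by linarith)]
    linarith

end Pool.Agent.Results.MP_12a475_nt.CloseRoots
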