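import Mathlib
import Pool.Agent.Lib.MP_12a475_nt.H58All

set_option autoImplicit false

namespace Pool.Agent.Results.MP_12a475_nt.PisotSalem

theorem result :
    ∃ c C : ℝ, 0 < c ∧ 0 < C ∧
      ∀ n : ℕ, ∀ P₁ P₂ : Polynomial ℤ,
        P₁ ≠ 0 → P₂ ≠ 0 →
        P₁.natDegree ≤ n → P₂.natDegree ≤ n →
        (∀ i : ℕ, P₁.coeff i ∈ ({-1, 0, 1} : Set ℤ)) →
        (∀ i : ℕ, P₂.coeff i ∈ ({-1, 0, 1} : Set ℤ)) →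
        ∀ ξ₁ ξ₂ : ℂ,
          Polynomial.aeval ξ₁ P₁ = 0 → Polynomial.aeval ξ₂ P₂ = 0 →
          ξ₁ ≠ ξ₂ →
          (∀ ξ ∈ ({ξ₁, ξ₂} : Set ℂ),
            (∀ a : ℂ, IsConjRoot ℚ ξ a →
              a = ξ ∨ a = (starRingEnd ℂ) ξ ∨ ‖a‖ ≤ Real.exp (c / n)) ∨
            (∀ a : ℂ, IsConjRoot ℚ ξ a →
              a = ξ ∨ a = (starRingEnd ℂ) ξ ∨ Real.exp (-(c / n)) ≤ ‖a‖)) →
          (C ^ n)⁻¹ < ‖ξ₁ - ξ₂‖ :=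
  Pool.Agent.MP_12a475_nt.H58.final

end Pool.Agent.Results.MP_12a475_nt.PisotSalem
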